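import Mathlib

/-!
# Strongly continuous one-parameter groups on a complex Hilbert space

Definitions of strongly continuous groups, of their generators, and of the spectrum and the
spectral bound of the generator.
-/

open MeasureTheory Filter Topology Set

namespace Pool.Agent.J6H47.PosGroup

variable {K : Type*} [NormedAddCommGroup K] [InnerProductSpace ℂ K]

/-- `T` is a strongly continuous one-parameter group `(T_t)_{t ∈ ℝ}` of bounded linear operators
on the complex Hilbert space `K`. -/
structure IsC0Group (T : ℝ → K →L[ℂ] K) : Prop where
  zero : T 0 = 1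
  add : ∀ s t, T (s + t) = T s * T t
  cont : ∀ x, Continuous fun t => T t x

/-- The graph of the generator `A` of the group `T`: `GenGraph T x y` says that `x` lies in the
domain of `A` and `A x = y`, that is, `(T_t x - x) / t` tends to `y` as `t → 0`. -/
def GenGraph (T : ℝ → K →L[ℂ] K) (x y : K) : Prop :=
  Tendsto (fun t : ℝ => (t : ℂ)⁻¹ • (T t x - x)) (𝓝[≠] 0) (𝓝 y)

/-- The complex number `z` lies in the resolvent set of the generator `A` of `T`: there is a
bounded operator `R` such that, for all `x` and `y`, `x` is in the domain of `A` with
`z x - A x = y` if and only if `x = R y`. In other words `z - A` is a bijection from the domain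
of `A` onto `K` and its inverse is bounded. -/
def InResolventSet (T : ℝ → K →L[ℂ] K) (z : ℂ) : Prop :=
  ∃ R : K →L[ℂ] K, ∀ x y : K, (∃ w, GenGraph T x w ∧ z • x - w = y) ↔ x = R y

/-- The spectrum `σ(A)` of the generator `A` of the group `T`. -/
def genSpectrum (T : ℝ → K →L[ℂ] K) : Set ℂ := {z | ¬ InResolventSet T z}

/-- The spectral bound `s(A) = sup {Re z | z ∈ σ(A)}` of the generator of the group `T`, an
extended real number. -/
noncomputable def spectralBound (T : ℝ → K →L[ℂ] K) : EReal :=
  sSup ((fun z : ℂ => (z.re : EReal)) '' genSpectrum T)

end Pool.Agent.J6H47.PosGroup
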