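import Pool.Agent.J6H47.PosGroup.Cone

/-!
# Positive groups: the resolvent is bounded on right half planes
-/

open MeasureTheory Filter Topology Set
open scoped ENNReal NNReal InnerProductSpace

set_option linter.unusedSectionVars false

namespace Pool.Agent.J6H47.PosGroup

variable {K : Type*} [NormedAddCommGroup K] [InnerProductSpace ℂ K] [CompleteSpace K]

namespace IsRes

variable {T : ℝ → K →L[ℂ] K} {s : ℝ} {R : ℂ → K →L[ℂ] K} (hR : IsRes T s R)
  (hT : IsC0Group T) {P : Set K} (hP : ConeHyp P) (hTP : ∀ t, ∀ x ∈ P, T t x ∈ P)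

include hR hT hP hTP

lemma lap_mem {l : ℝ} {t : ℝ} (ht : 0 ≤ t) {x : K} (hx : x ∈ P) : lap hT (l : ℂ) t x ∈ P :=
  hP.integral_mem (continuous_integrand hT _ _) ht (fun r _ => hR.integrand_mem hT hP hTP hx r)

lemma sub_lap_mem {l : ℝ} (hl : s < l) {t : ℝ} {x : K} (hx : x ∈ P) :
    R (l : ℂ) x - lap hT (l : ℂ) t x ∈ P := by
  rw [hR.lap_eq hT (z := (l : ℂ)) (by simpa using hl), sub_sub_cancel]
  have : Complex.exp (-((l : ℂ) * t)) = ((Real.exp (-(l * t)) : ℝ) : ℂ) := by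
    push_cast
    rfl
  rw [this]
  exact hP.smul _ (Real.exp_pos _).le _ (hTP t _ (hR.pos hT hP hTP hl hx))

lemma norm_weighted_le {c : ℝ} (hc : ∀ x y, x ∈ P → y - x ∈ P → ‖x‖ ≤ c * ‖y‖)
    {l : ℝ} {t : ℝ} (ht : 0 ≤ t) {x : K} (hx : x ∈ P) {φ : ℝ → ℝ} (hφ : Continuous φ)
    (hφ1 : ∀ r, |φ r| ≤ 1) :
    ‖∫ r in (0:ℝ)..t, (φ r : ℂ) • integrand T (l : ℂ) x r‖ ≤ (2 * c + 1) * ‖lap hT (l : ℂ) t x‖ := by
  set a := lap hT (l : ℂ) t x with ha
  set b := ∫ r in (0:ℝ)..t, (φ r : ℂ) • integrand T (l : ℂ) x r with hb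
  have hci := continuous_integrand hT (l : ℂ) x
  have hcφ : Continuous fun r => (φ r : ℂ) • integrand T (l : ℂ) x r := by fun_prop
  have hadd : a + b ∈ P := by
    have : a + b = ∫ r in (0:ℝ)..t, ((1 + φ r : ℝ) : ℂ) • integrand T (l : ℂ) x r := by
      rw [ha, hb, lap_apply, ← intervalIntegral.integral_add (hci.intervalIntegrable _ _)
        (hcφ.intervalIntegrable _ _)]
      refine intervalIntegral.integral_congr fun r _ => ?_
      push_cast
      simp only [add_smul, one_smul]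
    rw [this]
    refine hP.integral_mem (by fun_prop) ht fun r _ => ?_
    exact hP.smul _ (by linarith [(abs_le.1 (hφ1 r)).1]) _ (hR.integrand_mem hT hP hTP hx r)
  have hsub : a - b ∈ P := by
    have : a - b = ∫ r in (0:ℝ)..t, ((1 - φ r : ℝ) : ℂ) • integrand T (l : ℂ) x r := by
      rw [ha, hb, lap_apply, ← intervalIntegral.integral_sub (hci.intervalIntegrable _ _)
        (hcφ.intervalIntegrable _ _)]
      refine intervalIntegral.integral_congr fun r _ => ?_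
      push_cast
      simp only [sub_smul, one_smul]
    rw [this]
    refine hP.integral_mem (by fun_prop) ht fun r _ => ?_
    exact hP.smul _ (by linarith [(abs_le.1 (hφ1 r)).2]) _ (hR.integrand_mem hT hP hTP hx r)
  have h1 : ‖a + b‖ ≤ c * ‖(2 : ℂ) • a‖ := by
    refine hc _ _ hadd ?_
    have : (2 : ℂ) • a - (a + b) = a - b := by rw [two_smul]; abel
    rw [this]
    exact hsub
  rw [norm_smul] at h1
  simp only [Complex.norm_ofNat] at h1
  have h2 : ‖b‖ ≤ ‖a + b‖ + ‖a‖ := by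
    have : b = (a + b) - a := by abel
    nth_rw 1 [this]
    exact norm_sub_le _ _
  linarith

lemma norm_lap_le {c : ℝ} (hc0 : 0 ≤ c) (hc : ∀ x y, x ∈ P → y - x ∈ P → ‖x‖ ≤ c * ‖y‖)
    {z : ℂ} (hz : s < z.re) {t : ℝ} (ht : 0 ≤ t) {x : K} (hx : x ∈ P) :
    ‖lap hT z t x‖ ≤ 2 * (2 * c + 1) * c * ‖R (z.re : ℂ) x‖ := by
  have h1 : ‖lap hT (z.re : ℂ) t x‖ ≤ c * ‖R (z.re : ℂ) x‖ :=
    hc _ _ (hR.lap_mem hT hP hTP ht hx) (hR.sub_lap_mem hT hP hTP hz hx)
  have hci := continuous_integrand hT (z.re : ℂ) x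
  have hc1 : Continuous fun r : ℝ => ((Real.cos (z.im * r) : ℝ) : ℂ) • integrand T (z.re : ℂ) x r := by
    fun_prop
  have hc2 : Continuous fun r : ℝ => ((Real.sin (z.im * r) : ℝ) : ℂ) • integrand T (z.re : ℂ) x r := by
    fun_prop
  have e : lap hT z t x = (∫ r in (0:ℝ)..t, ((Real.cos (z.im * r) : ℝ) : ℂ) •
      integrand T (z.re : ℂ) x r) - Complex.I • ∫ r in (0:ℝ)..t,
        ((Real.sin (z.im * r) : ℝ) : ℂ) • integrand T (z.re : ℂ) x r := by
    have hc3 : Continuous fun r : ℝ => Complex.I • ((Real.sin (z.im * r) : ℝ) : ℂ) •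
        integrand T (z.re : ℂ) x r := hc2.const_smul _
    rw [← intervalIntegral.integral_smul, ← intervalIntegral.integral_sub
      (hc1.intervalIntegrable _ _) (hc3.intervalIntegrable _ _), lap_apply]
    refine intervalIntegral.integral_congr fun r _ => ?_
    simp only [integrand, smul_smul, ← sub_smul]
    congr 1
    have : -(z * r) = -((z.re : ℂ) * r) + ((-(z.im * r) : ℝ) : ℂ) * Complex.I := by
      push_cast
      nth_rw 1 [← Complex.re_add_im z]
      ring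
    rw [this, Complex.exp_add, Complex.exp_mul_I, ← Complex.ofReal_cos, ← Complex.ofReal_sin,
      Real.cos_neg, Real.sin_neg]
    push_cast
    ring
  have b1 := hR.norm_weighted_le hT hP hTP hc (l := z.re) ht hx
    (φ := fun r => Real.cos (z.im * r)) (by fun_prop) (fun r => Real.abs_cos_le_one _)
  have b2 := hR.norm_weighted_le hT hP hTP hc (l := z.re) ht hx
    (φ := fun r => Real.sin (z.im * r)) (by fun_prop) (fun r => Real.abs_sin_le_one _)
  rw [e]
  refine (norm_sub_le _ _).trans ?_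
  rw [norm_smul, Complex.norm_I, one_mul]
  have : (2 * c + 1) * ‖lap hT (z.re : ℂ) t x‖ ≤ (2 * c + 1) * (c * ‖R (z.re : ℂ) x‖) := by
    gcongr
  linarith

/-- Boundedness of all Laplace integrals. -/
lemma lap_bdd {z : ℂ} (hz : s < z.re) (x : K) : ∃ C, ∀ t, 0 ≤ t → ‖lap hT z t x‖ ≤ C := by
  obtain ⟨c, hc0, hc⟩ := hP.normal
  have key : ∀ x ∈ P, ∃ C, ∀ t, 0 ≤ t → ‖lap hT z t x‖ ≤ C := fun x hx =>
    ⟨_, fun t ht => hR.norm_lap_le hT hP hTP hc0 hc hz ht hx⟩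
  obtain ⟨p, hp, q, hq, u, hu, v, hv, rfl⟩ := hP.gen x
  obtain ⟨C1, h1⟩ := key p hp
  obtain ⟨C2, h2⟩ := key q hq
  obtain ⟨C3, h3⟩ := key u hu
  obtain ⟨C4, h4⟩ := key v hv
  refine ⟨C1 + C2 + (C3 + C4), fun t ht => ?_⟩
  rw [map_add, map_smul, map_sub, map_sub]
  refine (norm_add_le _ _).trans ?_
  rw [norm_smul, Complex.norm_I, one_mul]
  exact add_le_add ((norm_sub_le _ _).trans (add_le_add (h1 t ht) (h2 t ht)))
    ((norm_sub_le _ _).trans (add_le_add (h3 t ht) (h4 t ht)))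

lemma tendsto_exp_smul {z : ℂ} (hz : s < z.re) (x : K) :
    Tendsto (fun t : ℝ => Complex.exp (-(z * t)) • T t (R z x)) atTop (𝓝 0) := by
  obtain ⟨l, hl1, hl2⟩ := exists_between hz
  obtain ⟨w, hw, hw2⟩ := hR.graph hz x
  set y := R z x with hy
  -- `e^{-l t} T_t y` is bounded
  obtain ⟨C, hC⟩ := hR.lap_bdd hT hP hTP (z := (l : ℂ)) (by simpa using hl1) ((l : ℂ) • y - w)
  have hb : ∀ t, 0 ≤ t → Real.exp (-(l * t)) * ‖T t y‖ ≤ ‖y‖ + C := by
    intro t ht
    have h1 := genGraph_lap' hT hw (μ := (l : ℂ)) (t := t)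
    have h2 : Complex.exp (-((l : ℂ) * t)) • T t y = y - lap hT (l : ℂ) t ((l : ℂ) • y - w) := by
      rw [h1]; abel
    have h3 : ‖Complex.exp (-((l : ℂ) * t)) • T t y‖ = Real.exp (-(l * t)) * ‖T t y‖ := by
      rw [norm_smul, Complex.norm_exp]
      simp
    rw [← h3, h2]
    refine (norm_sub_le _ _).trans ?_
    gcongr
    exact hC t ht
  have hlim : Tendsto (fun t : ℝ => Real.exp (-((z.re - l) * t)) * (‖y‖ + C)) atTop (𝓝 0) := by
    have hpos : 0 < z.re - l := by linarith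
    have h1 : Tendsto (fun t : ℝ => (z.re - l) * t) atTop atTop :=
      tendsto_id.const_mul_atTop hpos
    have h2 := (Real.tendsto_exp_neg_atTop_nhds_zero.comp h1).mul_const (‖y‖ + C)
    simpa using h2
  refine squeeze_zero_norm' ?_ hlim
  filter_upwards [eventually_ge_atTop 0] with t ht
  have h3 : ‖Complex.exp (-(z * t)) • T t y‖ = Real.exp (-(z.re * t)) * ‖T t y‖ := by
    rw [norm_smul, Complex.norm_exp]
    simp
  have h4 : Real.exp (-(z.re * t)) = Real.exp (-((z.re - l) * t)) * Real.exp (-(l * t)) := by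
    rw [← Real.exp_add]
    ring_nf
  rw [h3, h4, mul_assoc]
  gcongr
  exact hb t ht

lemma tendsto_lap {z : ℂ} (hz : s < z.re) (x : K) :
    Tendsto (fun t : ℝ => lap hT z t x) atTop (𝓝 (R z x)) := by
  have h1 := (hR.tendsto_exp_smul hT hP hTP hz x).const_sub (R z x)
  rw [sub_zero] at h1
  refine h1.congr fun t => ?_
  rw [hR.lap_eq hT hz]

lemma norm_res_le {c : ℝ} (hc0 : 0 ≤ c) (hc : ∀ x y, x ∈ P → y - x ∈ P → ‖x‖ ≤ c * ‖y‖)
    {l : ℝ} (hl : s < l) {z : ℂ} (hz : l ≤ z.re) {x : K} (hx : x ∈ P) :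
    ‖R z x‖ ≤ 2 * (2 * c + 1) * c * (c * ‖R (l : ℂ) x‖) := by
  have hz' : s < z.re := hl.trans_le hz
  have h1 : ‖R z x‖ ≤ 2 * (2 * c + 1) * c * ‖R (z.re : ℂ) x‖ := by
    refine le_of_tendsto (hR.tendsto_lap hT hP hTP hz' x).norm ?_
    filter_upwards [eventually_ge_atTop 0] with t ht
    exact hR.norm_lap_le hT hP hTP hc0 hc hz' ht hx
  have h2 : ‖R (z.re : ℂ) x‖ ≤ c * ‖R (l : ℂ) x‖ := by
    refine hc _ _ (hR.pos hT hP hTP hz' hx) ?_
    rw [hR.identity (z := (z.re : ℂ)) (w := (l : ℂ)) (by simpa using hz') (by simpa using hl) x,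
      add_sub_cancel_left, ← Complex.ofReal_sub]
    exact hP.smul _ (by linarith) _ (hR.pos hT hP hTP hz' (hR.pos hT hP hTP hl hx))
  refine h1.trans ?_
  gcongr

/-- The resolvent is bounded on every half plane `Re z ≥ l`, where `l > s`. -/
lemma bounded {l : ℝ} (hl : s < l) : ∃ M : ℝ, 0 ≤ M ∧ ∀ z : ℂ, l ≤ z.re → ‖R z‖ ≤ M := by
  obtain ⟨c, hc0, hc⟩ := hP.normal
  have key : ∀ x ∈ P, ∃ C, ∀ z : ℂ, l ≤ z.re → ‖R z x‖ ≤ C := fun x hx =>
    ⟨_, fun z hz => hR.norm_res_le hT hP hTP hc0 hc hl hz hx⟩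
  have h := banach_steinhaus (g := fun z : {z : ℂ // l ≤ z.re} => R z) (fun x => by
    obtain ⟨p, hp, q, hq, u, hu, v, hv, rfl⟩ := hP.gen x
    obtain ⟨C1, h1⟩ := key p hp
    obtain ⟨C2, h2⟩ := key q hq
    obtain ⟨C3, h3⟩ := key u hu
    obtain ⟨C4, h4⟩ := key v hv
    refine ⟨C1 + C2 + (C3 + C4), fun z => ?_⟩
    rw [map_add, map_smul, map_sub, map_sub]
    refine (norm_add_le _ _).trans ?_
    rw [norm_smul, Complex.norm_I, one_mul]
    exact add_le_add ((norm_sub_le _ _).trans (add_le_add (h1 z z.2) (h2 z z.2)))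
      ((norm_sub_le _ _).trans (add_le_add (h3 z z.2) (h4 z z.2))))
  obtain ⟨M, hM⟩ := h
  exact ⟨max M 0, le_max_right _ _, fun z hz => (hM ⟨z, hz⟩).trans (le_max_left _ _)⟩

end IsRes

end Pool.Agent.J6H47.PosGroup
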