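import Pool.Agent.J6H47.PosGroup.Gen

/-!
# Positive groups: positivity and boundedness of the resolvent
-/

open MeasureTheory Filter Topology Set
open scoped ENNReal NNReal InnerProductSpace

set_option linter.unusedSectionVars false

namespace Pool.Agent.J6H47.PosGroup

variable {K : Type*} [NormedAddCommGroup K] [InnerProductSpace ℂ K] [CompleteSpace K]

/-- Closed normal convex cones of a complex Hilbert space which generate the space over `ℂ`. -/
structure ConeHyp (P : Set K) : Prop where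
  closed : IsClosed P
  add : ∀ x ∈ P, ∀ y ∈ P, x + y ∈ P
  smul : ∀ r : ℝ, 0 ≤ r → ∀ x ∈ P, (r : ℂ) • x ∈ P
  normal : ∃ c : ℝ, 0 ≤ c ∧ ∀ x y, x ∈ P → y - x ∈ P → ‖x‖ ≤ c * ‖y‖
  gen : ∀ z : K, ∃ a ∈ P, ∃ b ∈ P, ∃ c ∈ P, ∃ d ∈ P, z = (a - b) + Complex.I • (c - d)

lemma summable_pow_of_spectralRadius_lt {a : K →L[ℂ] K} {r : ℝ≥0}
    (h : spectralRadius ℂ a < r) : ∃ C : ℝ, 0 < C ∧ ∀ n : ℕ, ‖a ^ n‖ ≤ C * (r : ℝ) ^ n := by
  have hr : 0 < r := by
    have : (0 : ℝ≥0∞) < r := lt_of_le_of_lt bot_le h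
    exact_mod_cast this
  have h1 := spectrum.pow_nnnorm_pow_one_div_tendsto_nhds_spectralRadius a
  have h2 := h1.eventually_lt_const h
  obtain ⟨N, hN⟩ := eventually_atTop.1 h2
  -- for `n ≥ max N 1` we have `‖a ^ n‖ ≤ r ^ n`
  have h3 : ∀ n, max N 1 ≤ n → ‖a ^ n‖ ≤ (r : ℝ) ^ n := by
    intro n hn
    have hn1 : 1 ≤ n := (le_max_right _ _).trans hn
    have := hN n ((le_max_left _ _).trans hn)
    have hnpos : (0 : ℝ) < n := by exact_mod_cast hn1
    have h4 : ((‖a ^ n‖₊ : ℝ≥0∞) ^ (1 / n : ℝ)) ^ (n : ℝ) ≤ (r : ℝ≥0∞) ^ (n : ℝ) :=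
      ENNReal.rpow_le_rpow this.le hnpos.le
    rw [← ENNReal.rpow_mul, one_div, inv_mul_cancel₀ hnpos.ne', ENNReal.rpow_one,
      ENNReal.rpow_natCast] at h4
    exact_mod_cast h4
  refine ⟨1 + ∑ k ∈ Finset.range (max N 1), ‖a ^ k‖ / (r : ℝ) ^ k, by positivity, fun n => ?_⟩
  have hrn : 0 < (r : ℝ) ^ n := by positivity
  rw [← div_le_iff₀ hrn]
  by_cases hn : max N 1 ≤ n
  · have := (div_le_one hrn).2 (h3 n hn)
    have h0 : 0 ≤ ∑ k ∈ Finset.range (max N 1), ‖a ^ k‖ / (r : ℝ) ^ k := by positivity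
    linarith
  · have hmem : n ∈ Finset.range (max N 1) := Finset.mem_range.2 (not_le.1 hn)
    have := Finset.single_le_sum (f := fun k => ‖a ^ k‖ / (r : ℝ) ^ k)
      (fun k _ => by positivity) hmem
    linarith

namespace ConeHyp

variable {P : Set K} (hP : ConeHyp P)

include hP

lemma zero_mem : (0 : K) ∈ P := by
  obtain ⟨a, ha, -⟩ := hP.gen 0
  have := hP.smul 0 le_rfl a ha
  simpa using this

lemma convex : Convex ℝ P := by
  intro x hx y hy a b ha hb _
  have h1 := hP.smul a ha x hx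
  have h2 := hP.smul b hb y hy
  rw [Complex.coe_smul] at h1 h2
  exact hP.add _ h1 _ h2

lemma integral_mem {f : ℝ → K} (hf : Continuous f) {t : ℝ} (ht : 0 ≤ t)
    (hmem : ∀ s ∈ Ioc 0 t, f s ∈ P) : ∫ s in (0:ℝ)..t, f s ∈ P := by
  rcases ht.eq_or_lt with rfl | ht
  · simpa using hP.zero_mem
  have h1 : ⨍ s in Ioc 0 t, f s ∈ P := by
    refine hP.convex.set_average_mem hP.closed ?_ ?_ ?_ ?_
    · simp [ht]
    · simp
    · filter_upwards [ae_restrict_mem measurableSet_Ioc] with s hs using hmem s hs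
    · exact (hf.integrableOn_Icc).mono_set Ioc_subset_Icc_self
  rw [setAverage_eq] at h1
  have h2 := hP.smul t ht.le _ h1
  rw [Complex.coe_smul, smul_smul] at h2
  simp only [Real.volume_real_Ioc_of_le ht.le, sub_zero, mul_inv_cancel₀ ht.ne', one_smul] at h2
  rwa [intervalIntegral.integral_of_le ht.le]

lemma sum_mem {ι : Type*} (s : Finset ι) (f : ι → K) (hf : ∀ i ∈ s, f i ∈ P) :
    ∑ i ∈ s, f i ∈ P :=
  Finset.sum_induction _ (· ∈ P) (fun a b ha hb => hP.add a ha b hb) hP.zero_mem hf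

/-- If `a` is a positive operator with `‖a ^ n‖ → 0` and `y - a y ≥ 0` then `y ≥ 0`. -/
lemma mem_of_sub_mem {a : K →L[ℂ] K} {C : ℝ} {r : ℝ} (hr0 : 0 ≤ r) (hr : r < 1)
    (hC : ∀ n : ℕ, ‖a ^ n‖ ≤ C * r ^ n) (hpos : ∀ x ∈ P, a x ∈ P) {y : K}
    (hy : y - a y ∈ P) : y ∈ P := by
  have hpow : ∀ n : ℕ, ∀ x ∈ P, (a ^ n) x ∈ P := by
    intro n
    induction n with
    | zero => intro x hx; simpa using hx
    | succ n ih =>
      intro x hx
      rw [pow_succ, mul_apply_eq_comp]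
      exact ih _ (hpos x hx)
  have hsum : ∀ N : ℕ, ∑ n ∈ Finset.range N, (a ^ n) (y - a y) = y - (a ^ N) y := by
    intro N
    induction N with
    | zero => simp
    | succ N ih =>
      rw [Finset.sum_range_succ, ih, map_sub, pow_succ (n := N), mul_apply_eq_comp]
      abel
  have hmem : ∀ N : ℕ, y - (a ^ N) y ∈ P := fun N => by
    rw [← hsum]
    exact hP.sum_mem _ _ fun n _ => hpow n _ hy
  have hlim : Tendsto (fun N : ℕ => y - (a ^ N) y) atTop (𝓝 y) := by
    have : Tendsto (fun N : ℕ => (a ^ N) y) atTop (𝓝 0) := by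
      have hb : Tendsto (fun N : ℕ => C * r ^ N * ‖y‖) atTop (𝓝 0) := by
        have := (tendsto_pow_atTop_nhds_zero_of_lt_one hr0 hr).const_mul C
        have := this.mul_const ‖y‖
        simpa using this
      exact squeeze_zero_norm (fun N => (a ^ N).le_of_opNorm_le (hC N) y) hb
    have h2 := this.const_sub y
    simpa using h2
  exact hP.closed.mem_of_tendsto hlim (Eventually.of_forall hmem)

end ConeHyp

omit [CompleteSpace K] in
lemma alg1 {c k : ℂ} (hk : k ≠ 0) (y u v w : K) (h : v = u + (c / k) • w) :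
    k⁻¹ • (k • y - c • u) + (c / k ^ 2) • (k • v - c • w) = y := by
  subst h
  match_scalars <;> field_simp <;> ring

omit [CompleteSpace K] in
lemma alg2 {c k : ℂ} (hk : k ≠ 0) (y u v w : K) (h : u = v + (-(c / k)) • w) :
    k • (k⁻¹ • y + (c / k ^ 2) • v) - c • (k⁻¹ • u + (c / k ^ 2) • w) = y := by
  subst h
  match_scalars <;> field_simp <;> ring

/-- `R` is the resolvent of the generator of `T` on the half plane `Re z > s`. -/
def IsRes (T : ℝ → K →L[ℂ] K) (s : ℝ) (R : ℂ → K →L[ℂ] K) : Prop :=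
  ∀ z : ℂ, s < z.re → ∀ x y, (∃ w, GenGraph T x w ∧ z • x - w = y) ↔ x = R z y

namespace IsRes

variable {T : ℝ → K →L[ℂ] K} {s : ℝ} {R : ℂ → K →L[ℂ] K} (hR : IsRes T s R)
  (hT : IsC0Group T)

include hR

lemma graph {z : ℂ} (hz : s < z.re) (y : K) : ∃ w, GenGraph T (R z y) w ∧ z • R z y - w = y :=
  (hR z hz _ _).2 rfl

lemma identity {z w : ℂ} (hz : s < z.re) (hw : s < w.re) (y : K) :
    R w y = R z y + (z - w) • R z (R w y) := by
  obtain ⟨v, hv, hv2⟩ := hR.graph hw y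
  have : R w y = R z (y + (z - w) • R w y) := by
    refine (hR z hz _ _).1 ⟨v, hv, ?_⟩
    have h3 : v = w • R w y - y := eq_sub_of_add_eq' (by rw [add_comm]; exact (sub_eq_iff_eq_add'.1 hv2).symm)
    rw [h3, sub_smul]
    abel
  rw [map_add, map_smul] at this
  exact this

include hT

lemma comm {z : ℂ} (hz : s < z.re) (t : ℝ) (y : K) : T t (R z y) = R z (T t y) := by
  obtain ⟨v, hv, hv2⟩ := hR.graph hz y
  refine (hR z hz _ _).1 ⟨T t v, hv.map_comm hT (fun r => hT.comm t r), ?_⟩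
  rw [← map_smul, ← map_sub, hv2]

lemma lap_eq {z : ℂ} (hz : s < z.re) (t : ℝ) (y : K) :
    lap hT z t y = R z y - Complex.exp (-(z * t)) • T t (R z y) := by
  obtain ⟨v, hv, hv2⟩ := hR.graph hz y
  rw [← genGraph_lap' hT hv, hv2]

lemma lap_eq' {z : ℂ} (hz : s < z.re) (t : ℝ) (y : K) :
    lap hT z t y = R z (y - Complex.exp (-(z * t)) • T t y) := by
  rw [hR.lap_eq hT hz, map_sub, map_smul, hR.comm hT hz]

variable {P : Set K} (hP : ConeHyp P) (hTP : ∀ t, ∀ x ∈ P, T t x ∈ P)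

include hP hTP

lemma integrand_mem {l : ℝ} {x : K} (hx : x ∈ P) (r : ℝ) : integrand T (l : ℂ) x r ∈ P := by
  unfold integrand
  have : Complex.exp (-((l : ℂ) * r)) = ((Real.exp (-(l * r)) : ℝ) : ℂ) := by
    push_cast
    rfl
  rw [this]
  exact hP.smul _ (Real.exp_pos _).le _ (hTP r x hx)

/-- Positivity of the resolvent at large real points. -/
lemma pos_large {l : ℝ} (hl : s < l) (hl2 : ‖Complex.exp (-(l : ℂ)) • T 1‖ < 1)
    {x : K} (hx : x ∈ P) : R (l : ℂ) x ∈ P := by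
  have h1 := hR.lap_eq hT (z := (l : ℂ)) (by simpa using hl) 1 x
  have h2 : lap hT (l : ℂ) 1 x ∈ P :=
    hP.integral_mem (continuous_integrand hT _ _) zero_le_one
      (fun r _ => hR.integrand_mem hT hP hTP hx r)
  refine hP.mem_of_sub_mem (a := Complex.exp (-(l : ℂ)) • T 1) (C := max 1 ‖(1 : K →L[ℂ] K)‖)
    (norm_nonneg _) hl2 ?_ ?_ ?_
  · intro n
    rcases Nat.eq_zero_or_pos n with rfl | hn
    · simp
    · calc _ ≤ ‖Complex.exp (-(l : ℂ)) • T 1‖ ^ n := norm_pow_le' _ hn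
        _ = 1 * ‖Complex.exp (-(l : ℂ)) • T 1‖ ^ n := by rw [one_mul]
        _ ≤ _ := by gcongr; exact le_max_left _ _
  · intro y hy
    have : Complex.exp (-(l : ℂ)) = ((Real.exp (-l) : ℝ) : ℂ) := by
      push_cast
      rfl
    rw [this]
    exact hP.smul _ (Real.exp_pos _).le _ (hTP 1 y hy)
  · rw [h1] at h2
    simpa using h2

/-- Positivity of the resolvent at all real points `l > s`. -/
lemma pos {l : ℝ} (hl : s < l) {x : K} (hx : x ∈ P) : R (l : ℂ) x ∈ P := by
  -- choose a large point `L`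
  obtain ⟨L, hlL, hL⟩ : ∃ L : ℝ, l < L ∧ ‖Complex.exp (-(L : ℂ)) • T 1‖ < 1 := by
    have h1 : Tendsto (fun L : ℝ => Real.exp (-L) * ‖T 1‖) atTop (𝓝 0) := by
      have := Real.tendsto_exp_neg_atTop_nhds_zero.mul_const ‖T 1‖
      simpa using this
    obtain ⟨L, hL⟩ := ((h1.eventually_lt_const one_pos).and (eventually_gt_atTop l)).exists
    refine ⟨L, hL.2, ?_⟩
    rw [norm_smul, Complex.norm_exp]
    simpa using hL.1
  have hsL : s < L := hl.trans hlL
  -- the spectral radius of `(L - l) R(L)`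
  set a : K →L[ℂ] K := ((L - l : ℝ) : ℂ) • R (L : ℂ) with ha
  obtain ⟨s', hs1, hs2⟩ := exists_between hl
  have hLs : 0 < L - s' := by linarith
  have hLl : 0 < L - l := by linarith
  have hq0 : 0 ≤ (L - l) / (L - s') := by positivity
  have hq1 : (L - l) / (L - s') < 1 := by rw [div_lt_one hLs]; linarith
  have hspec : spectralRadius ℂ a ≤ ENNReal.ofReal ((L - l) / (L - s')) := by
    unfold spectralRadius
    refine iSup₂_le fun k hk => ?_
    by_contra hlt
    rw [not_le] at hlt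
    have hlt' : (L - l) / (L - s') < ‖k‖ := by
      rw [← enorm_eq_nnnorm, ← ofReal_norm, ENNReal.ofReal_lt_ofReal_iff_of_nonneg hq0] at hlt
      exact hlt
    apply hk
    -- `k - a` is invertible
    have hk0 : k ≠ 0 := by
      rintro rfl
      simp at hlt'
      linarith
    set z : ℂ := (L : ℂ) - (L - l : ℝ) / k with hz
    have hzre : s < z.re := by
      have h1 : ((((L - l : ℝ) : ℂ) / k).re) ≤ (L - l) / ‖k‖ := by
        refine (Complex.re_le_norm _).trans ?_
        rw [norm_div, Complex.norm_real, Real.norm_of_nonneg hLl.le]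
      have h2 : (L - l) / ‖k‖ < L - s' := by
        rw [div_lt_iff₀ (norm_pos_iff.2 hk0)]
        rw [div_lt_iff₀ hLs] at hlt'
        linarith
      have h3 : z.re = L - (((L - l : ℝ) : ℂ) / k).re := by simp [hz]
      rw [h3]
      linarith
    have hLre : s < (L : ℂ).re := by simpa using hsL
    have hkz : (L : ℂ) - z = (L - l : ℝ) / k := by rw [hz]; ring
    -- inverse
    set B : K →L[ℂ] K := k⁻¹ • 1 + (((L - l : ℝ) : ℂ) / k ^ 2) • R z with hB
    have e1 : ∀ y, R (L : ℂ) y = R z y + (z - (L : ℂ)) • R z (R (L : ℂ) y) := fun y =>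
      hR.identity hzre hLre y
    have e2 : ∀ y, R z y = R (L : ℂ) y + ((L : ℂ) - z) • R (L : ℂ) (R z y) := fun y =>
      hR.identity hLre hzre y
    have hmul1 : (algebraMap ℂ (K →L[ℂ] K) k - a) * B = 1 := by
      ext y
      simp only [hB, ha, Algebra.algebraMap_eq_smul_one, mul_apply_eq_comp,
        sub_apply, add_apply, smul_apply, one_apply_eq_self, map_add, map_smul]
      have := e2 y
      rw [hkz] at this
      exact alg1 hk0 _ _ _ _ this
    have hmul2 : B * (algebraMap ℂ (K →L[ℂ] K) k - a) = 1 := by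
      ext y
      simp only [hB, ha, Algebra.algebraMap_eq_smul_one, mul_apply_eq_comp,
        sub_apply, add_apply, smul_apply, one_apply_eq_self, map_sub, map_smul]
      have := e1 y
      have hkz' : z - (L : ℂ) = -((L - l : ℝ) / k) := by rw [← hkz]; ring
      rw [hkz'] at this
      exact alg2 hk0 _ _ _ _ this
    exact ⟨⟨_, B, hmul1, hmul2⟩, rfl⟩
  obtain ⟨q, hq, hq2⟩ := exists_between hq1
  have hqpos : 0 ≤ q := hq0.trans hq.le
  have hspec2 : spectralRadius ℂ a < ((Real.toNNReal q : ℝ≥0) : ℝ≥0∞) := by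
    refine hspec.trans_lt ?_
    exact (ENNReal.ofReal_lt_ofReal_iff_of_nonneg hq0).2 hq
  obtain ⟨C, -, hC⟩ := summable_pow_of_spectralRadius_lt hspec2
  rw [Real.coe_toNNReal q hqpos] at hC
  refine hP.mem_of_sub_mem (a := a) (C := C) (r := q) hqpos hq2 hC ?_ ?_
  · intro y hy
    rw [ha]
    exact hP.smul _ hLl.le _ (hR.pos_large hT hP hTP hsL hL hy)
  · have := hR.identity (z := (L : ℂ)) (w := (l : ℂ)) (by simpa using hsL) (by simpa using hl) x
    have h2 : R (l : ℂ) x - a (R (l : ℂ) x) = R (L : ℂ) x := by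
      nth_rw 1 [this]
      rw [ha]
      simp only [smul_apply]
      push_cast
      abel
    rw [h2]
    exact hR.pos_large hT hP hTP hsL hL hx

end IsRes

end Pool.Agent.J6H47.PosGroup
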