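import Pool.Agent.J6H47.PosGroup.Bound

/-!
# From a bounded resolvent to the spectral radius of `T_1`
-/

open MeasureTheory Filter Topology Set
open scoped ENNReal NNReal InnerProductSpace

set_option linter.unusedSectionVars false

namespace Pool.Agent.J6H47.PosGroup

variable {K : Type*} [NormedAddCommGroup K] [InnerProductSpace ℂ K] [CompleteSpace K]

section

variable {T : ℝ → K →L[ℂ] K} (hT : IsC0Group T)

include hT

/-- Parseval for orbits. -/
lemma tsum_lap (μ : ℂ) (x : K) :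
    ∑' k : ℤ, (‖lap hT (μ + 2 * Real.pi * Complex.I * k) 1 x‖ₑ) ^ 2
      = ∫⁻ r in Ioc (0:ℝ) 1, (‖integrand T μ x r‖ₑ) ^ 2 := by
  rw [← parseval _ (continuous_integrand hT μ x)]
  refine tsum_congr fun k => ?_
  rw [lap_apply]
  congr 2
  refine intervalIntegral.integral_congr fun r _ => ?_
  simp only [integrand, ech, smul_smul]
  rw [← Complex.exp_add]
  congr 2
  ring

lemma norm_integrand (μ : ℂ) (x : K) (r : ℝ) :
    ‖integrand T μ x r‖ = Real.exp (-(μ.re * r)) * ‖T r x‖ := by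
  rw [integrand, norm_smul, Complex.norm_exp]
  simp

/-- Lower bound for the orbit integral. -/
lemma lower_integral (L : ℝ) : ∃ D : ℝ, 0 < D ∧ ∀ μ : ℂ, |μ.re| ≤ L → ∀ x : K,
    (‖x‖ₑ) ^ 2 ≤ (ENNReal.ofReal D) ^ 2 * ∫⁻ r in Ioc (0:ℝ) 1, (‖integrand T μ x r‖ₑ) ^ 2 := by
  obtain ⟨C, hC0, hC⟩ := hT.bound_Icc (-1) 0
  refine ⟨C * Real.exp L, by positivity, fun μ hμ x => ?_⟩
  have key : ∀ r ∈ Ioc (0:ℝ) 1, ‖x‖ ≤ (C * Real.exp L) * ‖integrand T μ x r‖ := by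
    intro r hr
    rw [norm_integrand hT]
    have h1 : ‖x‖ ≤ C * ‖T r x‖ := by
      have := (T (-r)).le_of_opNorm_le (hC (-r) ⟨by linarith [hr.2], by linarith [hr.1]⟩) (T r x)
      rwa [hT.neg_apply] at this
    have h2 : 1 ≤ Real.exp L * Real.exp (-(μ.re * r)) := by
      rw [← Real.exp_add]
      apply Real.one_le_exp
      have h3 : μ.re * r ≤ |μ.re| * 1 := by
        calc μ.re * r ≤ |μ.re| * r := by gcongr; exacts [hr.1.le, le_abs_self _]
          _ ≤ |μ.re| * 1 := by gcongr; exact hr.2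
      linarith
    calc ‖x‖ ≤ C * ‖T r x‖ * 1 := by rw [mul_one]; exact h1
      _ ≤ C * ‖T r x‖ * (Real.exp L * Real.exp (-(μ.re * r))) := by gcongr
      _ = _ := by ring
  have h1 : (‖x‖ₑ) ^ 2 = ∫⁻ _ in Ioc (0:ℝ) 1, (‖x‖ₑ) ^ 2 := by
    rw [lintegral_const]
    simp
  rw [h1, ← lintegral_const_mul']
  · refine setLIntegral_mono' measurableSet_Ioc fun r hr => ?_
    rw [← mul_pow]
    gcongr
    rw [← ofReal_norm, ← ofReal_norm, ← ENNReal.ofReal_mul (by positivity)]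
    exact ENNReal.ofReal_le_ofReal (key r hr)
  · exact ENNReal.pow_ne_top ENNReal.ofReal_ne_top

/-- Upper bound for the orbit integral. -/
lemma upper_integral (L : ℝ) : ∃ D : ℝ, 0 < D ∧ ∀ μ : ℂ, |μ.re| ≤ L → ∀ x : K,
    ∫⁻ r in Ioc (0:ℝ) 1, (‖integrand T μ x r‖ₑ) ^ 2 ≤ (ENNReal.ofReal D) ^ 2 * (‖x‖ₑ) ^ 2 := by
  obtain ⟨C, hC0, hC⟩ := hT.bound_Icc 0 1
  refine ⟨Real.exp L * C, by positivity, fun μ hμ x => ?_⟩
  have key : ∀ r ∈ Ioc (0:ℝ) 1, ‖integrand T μ x r‖ ≤ (Real.exp L * C) * ‖x‖ := by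
    intro r hr
    rw [norm_integrand hT]
    have h1 := (T r).le_of_opNorm_le (hC r ⟨hr.1.le, hr.2⟩) x
    have h2 : Real.exp (-(μ.re * r)) ≤ Real.exp L := by
      apply Real.exp_le_exp.2
      have h3 : -(μ.re) * r ≤ |μ.re| * 1 := by
        calc -(μ.re) * r ≤ |μ.re| * r := by gcongr; exacts [hr.1.le, neg_le_abs _]
          _ ≤ |μ.re| * 1 := by gcongr; exact hr.2
      linarith
    calc _ ≤ Real.exp L * (C * ‖x‖) := by gcongr
      _ = _ := by ring
  have h1 : ∫⁻ _ in Ioc (0:ℝ) 1, (ENNReal.ofReal (Real.exp L * C)) ^ 2 * (‖x‖ₑ) ^ 2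
      = (ENNReal.ofReal (Real.exp L * C)) ^ 2 * (‖x‖ₑ) ^ 2 := by
    rw [lintegral_const]
    simp
  rw [← h1]
  refine setLIntegral_mono' measurableSet_Ioc fun r hr => ?_
  rw [← mul_pow]
  gcongr
  rw [← ofReal_norm, ← ofReal_norm, ← ENNReal.ofReal_mul (by positivity)]
  exact ENNReal.ofReal_le_ofReal (key r hr)

end

namespace IsRes

variable {T : ℝ → K →L[ℂ] K} {s : ℝ} {R : ℂ → K →L[ℂ] K} (hR : IsRes T s R)
  (hT : IsC0Group T)

include hR hT

/-- The a priori estimate. -/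
lemma apriori {l L M : ℝ} (hl : s < l) (hlL : l ≤ L) (hL : Real.exp (-L) * ‖T 1‖ ≤ 1 / 2)
    (hM : ∀ z : ℂ, l ≤ z.re → ‖R z‖ ≤ M) :
    ∃ D : ℝ, 0 < D ∧ ∀ μ : ℂ, l ≤ μ.re → μ.re ≤ L → ∀ x : K,
      ‖x‖ ≤ D * ‖Complex.exp (-μ) • T 1 x - x‖ := by
  obtain ⟨D1, hD1, h1⟩ := lower_integral hT (|l| + |L|)
  obtain ⟨D2, hD2, h2⟩ := upper_integral hT (|l| + |L|)
  set E : ℝ := 1 + (L - l) * |M| with hE
  have hE0 : 0 < E := by
    have : 0 ≤ (L - l) * |M| := mul_nonneg (by linarith) (abs_nonneg _)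
    linarith
  refine ⟨D1 * E * D2 * 2, by positivity, fun μ hμ1 hμ2 x => ?_⟩
  set d := Complex.exp (-μ) • T 1 x - x with hd
  have habs : |μ.re| ≤ |l| + |L| := by
    rw [abs_le]
    constructor
    · linarith [neg_abs_le l, abs_nonneg L]
    · linarith [le_abs_self L, abs_nonneg l]
  -- the shifted point
  set ν : ℂ := (L : ℂ) + (μ.im : ℂ) * Complex.I with hν
  have hνre : ν.re = L := by simp [hν]
  have hνμ : ν - μ = ((L - μ.re : ℝ) : ℂ) := by
    apply Complex.ext <;> simp [hν]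
  -- `y` with `y - e^{-ν} T_1 y = d`
  have hnorm : ‖Complex.exp (-ν) • T 1‖ ≤ 1 / 2 := by
    rw [norm_smul, Complex.norm_exp]
    simpa [hνre] using hL
  have hunit : IsUnit (1 - Complex.exp (-ν) • T 1) :=
    isUnit_one_sub_of_norm_lt_one (hnorm.trans_lt (by norm_num))
  obtain ⟨y, hy⟩ : ∃ y, y - Complex.exp (-ν) • T 1 y = d := by
    obtain ⟨u, hu⟩ := hunit
    refine ⟨(↑u⁻¹ : K →L[ℂ] K) d, ?_⟩
    have h3 : (u : K →L[ℂ] K) ((↑u⁻¹ : K →L[ℂ] K) d) = d := by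
      rw [← mul_apply_eq_comp, Units.mul_inv]
      rfl
    rw [hu] at h3
    simpa using h3
  have hynorm : ‖y‖ ≤ 2 * ‖d‖ := by
    have h3 : y = d + (Complex.exp (-ν) • T 1) y := by
      rw [← hy]
      simp
    have h4 : ‖(Complex.exp (-ν) • T 1) y‖ ≤ 1 / 2 * ‖y‖ :=
      ContinuousLinearMap.le_of_opNorm_le _ hnorm y
    have h5 : ‖y‖ ≤ ‖d‖ + ‖(Complex.exp (-ν) • T 1) y‖ := by
      nth_rw 1 [h3]
      exact norm_add_le _ _
    linarith
  -- compare the Fourier coefficients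
  have hexp : ∀ (k : ℤ) (z : ℂ), Complex.exp (-((z + 2 * Real.pi * Complex.I * k) * (1:ℝ)))
      = Complex.exp (-z) := by
    intro k z
    have : -((z + 2 * Real.pi * Complex.I * k) * (1:ℝ))
        = -z + ((-k : ℤ) : ℂ) * (2 * Real.pi * Complex.I) := by
      push_cast
      ring
    rw [this, Complex.exp_add, Complex.exp_int_mul_two_pi_mul_I, mul_one]
  have hre : ∀ (k : ℤ) (z : ℂ), (z + 2 * Real.pi * Complex.I * k).re = z.re := by
    intro k z
    simp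
  have hcomp : ∀ k : ℤ, ‖lap hT (μ + 2 * Real.pi * Complex.I * k) 1 x‖
      ≤ E * ‖lap hT (ν + 2 * Real.pi * Complex.I * k) 1 y‖ := by
    intro k
    set μk := μ + 2 * Real.pi * Complex.I * k with hμk
    set νk := ν + 2 * Real.pi * Complex.I * k with hνk
    have hμkre : μk.re = μ.re := hre k μ
    have hνkre : νk.re = L := by rw [hre k ν, hνre]
    have a1 : lap hT μk 1 x = - R μk d := by
      rw [hR.lap_eq' hT (by rw [hμkre]; linarith), hexp k μ, ← map_neg, hd, neg_sub]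
    have a2 : lap hT νk 1 y = R νk d := by
      rw [hR.lap_eq' hT (by rw [hνkre]; linarith), hexp k ν, hy]
    rw [a1, a2, norm_neg]
    have a3 := hR.identity (z := μk) (w := νk) (by rw [hμkre]; linarith)
      (by rw [hνkre]; linarith) d
    have a4 : R μk d = R νk d + (νk - μk) • R μk (R νk d) := by
      nth_rw 1 [a3]
      rw [add_assoc, ← add_smul]
      simp
    have a5 : ‖νk - μk‖ ≤ L - l := by
      have : νk - μk = ((L - μ.re : ℝ) : ℂ) := by rw [← hνμ, hμk, hνk]; ring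
      rw [this, Complex.norm_real, Real.norm_of_nonneg (by linarith)]
      linarith
    have a6 : ‖R μk (R νk d)‖ ≤ |M| * ‖R νk d‖ :=
      (R μk).le_of_opNorm_le ((hM μk (by rw [hμkre]; exact hμ1)).trans (le_abs_self M)) _
    rw [a4]
    refine (norm_add_le _ _).trans ?_
    rw [norm_smul, hE]
    have : ‖νk - μk‖ * ‖R μk (R νk d)‖ ≤ (L - l) * (|M| * ‖R νk d‖) := by
      gcongr
    linarith
  -- conclude
  have c1 : (‖x‖ₑ) ^ 2 ≤ (ENNReal.ofReal D1) ^ 2 * ((ENNReal.ofReal E) ^ 2 *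
      ((ENNReal.ofReal D2) ^ 2 * (‖y‖ₑ) ^ 2)) := by
    calc (‖x‖ₑ) ^ 2 ≤ (ENNReal.ofReal D1) ^ 2 *
          ∑' k : ℤ, (‖lap hT (μ + 2 * Real.pi * Complex.I * k) 1 x‖ₑ) ^ 2 := by
          rw [tsum_lap]
          exact h1 μ habs x
      _ ≤ (ENNReal.ofReal D1) ^ 2 * ∑' k : ℤ, (ENNReal.ofReal E) ^ 2 *
          (‖lap hT (ν + 2 * Real.pi * Complex.I * k) 1 y‖ₑ) ^ 2 := by
          gcongr with k
          rw [← mul_pow]
          gcongr
          rw [← ofReal_norm, ← ofReal_norm, ← ENNReal.ofReal_mul hE0.le]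
          exact ENNReal.ofReal_le_ofReal (hcomp k)
      _ = (ENNReal.ofReal D1) ^ 2 * ((ENNReal.ofReal E) ^ 2 *
          ∫⁻ r in Ioc (0:ℝ) 1, (‖integrand T ν y r‖ₑ) ^ 2) := by
          rw [ENNReal.tsum_mul_left, tsum_lap]
      _ ≤ _ := by
          gcongr
          refine h2 ν ?_ y
          rw [hνre]
          linarith [abs_nonneg l]
  have c2 : (ENNReal.ofReal ‖x‖) ^ 2 ≤ (ENNReal.ofReal (D1 * E * D2 * ‖y‖)) ^ 2 := by
    rw [← ofReal_norm, ← ofReal_norm] at c1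
    refine c1.trans (le_of_eq ?_)
    rw [ENNReal.ofReal_mul (by positivity), ENNReal.ofReal_mul (by positivity),
      ENNReal.ofReal_mul (by positivity)]
    ring
  have c3 : ‖x‖ ≤ D1 * E * D2 * ‖y‖ := by
    have h3 : ENNReal.ofReal ‖x‖ ≤ ENNReal.ofReal (D1 * E * D2 * ‖y‖) := by
      by_contra hlt
      rw [not_le] at hlt
      exact absurd c2 (not_le.2 (by gcongr))
    exact (ENNReal.ofReal_le_ofReal_iff (by positivity)).1 h3
  calc ‖x‖ ≤ D1 * E * D2 * ‖y‖ := c3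
    _ ≤ D1 * E * D2 * (2 * ‖d‖) := by gcongr
    _ = _ := by ring

end IsRes

end Pool.Agent.J6H47.PosGroup
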