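import Mathlib

/-!
# Parseval's identity for continuous functions with values in a Hilbert space
-/

open MeasureTheory Filter Topology Set
open scoped ENNReal NNReal InnerProductSpace

namespace Pool.Agent.J6H47.PosGroup

variable {K : Type*} [NormedAddCommGroup K] [InnerProductSpace ℂ K] [CompleteSpace K]

/-- The character `s ↦ exp (- 2 π i k s)`. -/
noncomputable def ech (k : ℤ) (s : ℝ) : ℂ := Complex.exp (-(2 * Real.pi * Complex.I * k * s))

lemma continuous_ech (k : ℤ) : Continuous (ech k) := by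
  unfold ech
  fun_prop

/-- Parseval, scalar version. -/
lemma scalar_parseval (f : ℝ → ℂ) (hf : Continuous f) :
    ∑' k : ℤ, (‖∫ s in (0:ℝ)..1, ech k s * f s‖ₑ) ^ 2 = ∫⁻ s in Ioc (0:ℝ) 1, (‖f s‖ₑ) ^ 2 := by
  have h01 : (0:ℝ) < 1 := one_pos
  have hL2 : MemLp f 2 (volume.restrict (Ioc (0:ℝ) 1)) := by
    obtain ⟨C, hC⟩ := (isCompact_Icc (a := (0:ℝ)) (b := 1)).exists_bound_of_continuousOn
      hf.continuousOn
    refine MemLp.of_bound hf.aestronglyMeasurable C ?_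
    filter_upwards [ae_restrict_mem measurableSet_Ioc] with x hx
    exact hC x ⟨hx.1.le, hx.2⟩
  have h := hasSum_sq_fourierCoeffOn h01 hL2
  have hcoef : ∀ k : ℤ, fourierCoeffOn h01 f k = ∫ s in (0:ℝ)..1, ech k s * f s := by
    intro k
    rw [fourierCoeffOn_eq_integral]
    simp only [sub_zero, div_one, one_smul, smul_eq_mul]
    refine intervalIntegral.integral_congr fun s _ => ?_
    congr 1
    have : (fourier (-k) : C(AddCircle ((1:ℝ) - 0), ℂ)) (s : AddCircle ((1:ℝ) - 0))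
        = Complex.exp (2 * Real.pi * Complex.I * ((-k : ℤ) : ℂ) * s / ((1 - 0 : ℝ) : ℂ)) :=
      fourier_coe_apply
    rw [this, ech]
    congr 1
    push_cast
    ring
  simp_rw [hcoef] at h
  have hint : Integrable (fun s => ‖f s‖ ^ 2) (volume.restrict (Ioc (0:ℝ) 1)) := by
    have : Continuous fun s => ‖f s‖ ^ 2 := by fun_prop
    exact (this.integrableOn_Icc (a := (0:ℝ)) (b := 1)).mono_set Ioc_subset_Icc_self
  have e1 : ∫⁻ s in Ioc (0:ℝ) 1, (‖f s‖ₑ) ^ 2
      = ENNReal.ofReal (∫ s in Ioc (0:ℝ) 1, ‖f s‖ ^ 2) := by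
    rw [ofReal_integral_eq_lintegral_ofReal hint (Eventually.of_forall fun s => by positivity)]
    refine lintegral_congr fun s => ?_
    rw [← ofReal_norm, ENNReal.ofReal_pow (norm_nonneg _)]
  have e2 : ∑' k : ℤ, (‖∫ s in (0:ℝ)..1, ech k s * f s‖ₑ) ^ 2
      = ENNReal.ofReal (∑' k : ℤ, ‖∫ s in (0:ℝ)..1, ech k s * f s‖ ^ 2) := by
    rw [ENNReal.ofReal_tsum_of_nonneg (fun k => by positivity) h.summable]
    refine tsum_congr fun k => ?_
    rw [← ofReal_norm, ENNReal.ofReal_pow (norm_nonneg _)]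
  rw [e1, e2, h.tsum_eq]
  congr 1
  rw [intervalIntegral.integral_of_le h01.le]
  simp

/-- Parseval for a Hilbert basis, in `ℝ≥0∞`. -/
lemma enorm_sq_eq_tsum {ι : Type*} (b : HilbertBasis ι ℂ K) (x : K) :
    (‖x‖ₑ) ^ 2 = ∑' i, (‖⟪b i, x⟫_ℂ‖ₑ) ^ 2 := by
  have h := lp.hasSum_norm (p := 2) (by simp) (b.repr x)
  have h2 : HasSum (fun i => ‖⟪b i, x⟫_ℂ‖ ^ 2) (‖x‖ ^ 2) := by
    have : ‖b.repr x‖ = ‖x‖ := b.repr.norm_map x
    rw [this] at h
    simp only [ENNReal.toReal_ofNat, Real.rpow_two] at h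
    convert! h using 3 with i
    rw [b.repr_apply_apply]
  rw [← ofReal_norm, ← ENNReal.ofReal_pow (norm_nonneg _), ← h2.tsum_eq,
    ENNReal.ofReal_tsum_of_nonneg (fun k => by positivity) h2.summable]
  refine tsum_congr fun k => ?_
  rw [← ofReal_norm, ENNReal.ofReal_pow (norm_nonneg _)]

/-- **Parseval's identity** for continuous Hilbert space valued functions on `[0, 1]`. -/
lemma parseval (g : ℝ → K) (hg : Continuous g) :
    ∑' k : ℤ, (‖∫ s in (0:ℝ)..1, ech k s • g s‖ₑ) ^ 2 = ∫⁻ s in Ioc (0:ℝ) 1, (‖g s‖ₑ) ^ 2 := by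
  obtain ⟨w, b, hb⟩ := exists_hilbertBasis ℂ K
  -- the countable set of indices seen by `g`
  let S : Set w := ⋃ q : ℚ, {i | ⟪b i, g (q : ℝ)⟫_ℂ ≠ 0}
  have hS : S.Countable := by
    refine countable_iUnion fun q => ?_
    have := b.summable_inner_mul_inner (g q) (g q)
    have h2 := this.countable_support
    refine h2.mono ?_
    intro i hi
    simp only [mem_ofPred_eq] at hi
    simp only [Function.mem_support, ne_eq, mul_eq_zero, not_or]
    refine ⟨?_, hi⟩
    rw [← inner_conj_symm]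
    exact (map_ne_zero _).2 hi
  have hzero : ∀ i, i ∉ S → ∀ s, ⟪b i, g s⟫_ℂ = 0 := by
    intro i hi
    have hcont : Continuous fun s => ⟪b i, g s⟫_ℂ := continuous_const.inner hg
    have : (fun s => ⟪b i, g s⟫_ℂ) = fun _ => 0 := by
      refine (Rat.isDenseEmbedding_coe_real.dense).equalizer hcont continuous_const ?_
      ext q
      by_contra hne
      exact hi (mem_iUnion.2 ⟨q, hne⟩)
    intro s
    exact congrFun this s
  have : Countable S := hS.to_subtype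
  have hinner : ∀ (i : w) (k : ℤ), ⟪b i, ∫ s in (0:ℝ)..1, ech k s • g s⟫_ℂ
      = ∫ s in (0:ℝ)..1, ech k s * ⟪b i, g s⟫_ℂ := by
    intro i k
    have hI : IntervalIntegrable (fun s => ech k s • g s) volume 0 1 :=
      ((continuous_ech k).smul hg).intervalIntegrable _ _
    have := (innerSL ℂ (b i)).intervalIntegral_comp_comm hI
    rw [innerSL_apply_apply] at this
    rw [← this]
    refine intervalIntegral.integral_congr fun s _ => ?_
    simp
  have key : ∀ x : K, (∀ i, i ∉ S → ⟪b i, x⟫_ℂ = 0) →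
      (‖x‖ₑ) ^ 2 = ∑' i : S, (‖⟪b (i : w), x⟫_ℂ‖ₑ) ^ 2 := by
    intro x hx
    rw [enorm_sq_eq_tsum b x]
    rw [tsum_subtype S (fun i => (‖⟪b i, x⟫_ℂ‖ₑ) ^ 2)]
    refine tsum_congr fun i => ?_
    by_cases hi : i ∈ S
    · rw [indicator_of_mem hi]
    · rw [indicator_of_notMem hi, hx i hi]
      simp
  have l1 : ∀ k : ℤ, (‖∫ s in (0:ℝ)..1, ech k s • g s‖ₑ) ^ 2
      = ∑' i : S, (‖∫ s in (0:ℝ)..1, ech k s * ⟪b (i : w), g s⟫_ℂ‖ₑ) ^ 2 := by
    intro k
    rw [key]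
    · simp_rw [hinner]
    · intro i hi
      rw [hinner]
      simp [hzero i hi]
  simp_rw [l1]
  rw [ENNReal.tsum_comm]
  have l2 : ∀ i : S, ∑' k : ℤ, (‖∫ s in (0:ℝ)..1, ech k s * ⟪b (i : w), g s⟫_ℂ‖ₑ) ^ 2
      = ∫⁻ s in Ioc (0:ℝ) 1, (‖⟪b (i : w), g s⟫_ℂ‖ₑ) ^ 2 := fun i =>
    scalar_parseval _ (continuous_const.inner hg)
  simp_rw [l2]
  rw [← lintegral_tsum]
  · refine lintegral_congr fun s => ?_
    rw [key (g s) (fun i hi => hzero i hi s)]
  · intro i
    have : Continuous fun s => ⟪b (i : w), g s⟫_ℂ := continuous_const.inner hg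
    fun_prop

end Pool.Agent.J6H47.PosGroup
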