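import Pool.Agent.J6H47.PosGroup.Basic
import Pool.Agent.J6H47.PosGroup.Parseval

/-!
# Basic facts on strongly continuous groups
-/

open MeasureTheory Filter Topology Set
open scoped ENNReal NNReal InnerProductSpace

set_option linter.unusedSectionVars false

namespace Pool.Agent.J6H47.PosGroup

variable {K : Type*} [NormedAddCommGroup K] [InnerProductSpace ℂ K] [CompleteSpace K]

namespace IsC0Group

variable {T : ℝ → K →L[ℂ] K} (hT : IsC0Group T)

include hT

lemma apply_add (s t : ℝ) (x : K) : T (s + t) x = T s (T t x) := by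
  rw [hT.add]; rfl

lemma apply_zero (x : K) : T 0 x = x := by
  rw [hT.zero]; rfl

lemma comm (s t : ℝ) : T s * T t = T t * T s := by
  rw [← hT.add, ← hT.add, add_comm]

lemma neg_apply (t : ℝ) (x : K) : T (-t) (T t x) = x := by
  rw [← hT.apply_add, neg_add_cancel, hT.apply_zero]

lemma apply_neg (t : ℝ) (x : K) : T t (T (-t) x) = x := by
  rw [← hT.apply_add, add_neg_cancel, hT.apply_zero]

lemma pow_one (n : ℕ) : T 1 ^ n = T n := by
  induction n with
  | zero => simp [hT.zero]
  | succ n ih => rw [pow_succ, ih, ← hT.add]; push_cast; rfl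

lemma bound_Icc (a b : ℝ) : ∃ C : ℝ, 0 < C ∧ ∀ t ∈ Icc a b, ‖T t‖ ≤ C := by
  have h := banach_steinhaus (g := fun t : Icc a b => T t) (fun x => by
    obtain ⟨C, hC⟩ := (isCompact_Icc (a := a) (b := b)).exists_bound_of_continuousOn
      (hT.cont x).continuousOn
    exact ⟨C, fun i => hC i i.2⟩)
  obtain ⟨C, hC⟩ := h
  refine ⟨max C 1, by positivity, fun t ht => (hC ⟨t, ht⟩).trans (le_max_left _ _)⟩

end IsC0Group

/-- The integrand `exp (- μ s) T_s x`. -/
noncomputable def integrand (T : ℝ → K →L[ℂ] K) (μ : ℂ) (x : K) (s : ℝ) : K :=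
  Complex.exp (-(μ * s)) • T s x

lemma continuous_integrand {T : ℝ → K →L[ℂ] K} (hT : IsC0Group T) (μ : ℂ) (x : K) :
    Continuous (integrand T μ x) := by
  unfold integrand
  have := hT.cont x
  fun_prop

/-- The Laplace integral `∫₀ᵗ exp (- μ s) T_s ds`. -/
noncomputable def lap {T : ℝ → K →L[ℂ] K} (hT : IsC0Group T) (μ : ℂ) (t : ℝ) : K →L[ℂ] K :=
  LinearMap.mkContinuousOfExistsBound
    { toFun := fun x => ∫ s in (0:ℝ)..t, integrand T μ x s
      map_add' := fun x y => by
        rw [← intervalIntegral.integral_add ((continuous_integrand hT μ x).intervalIntegrable _ _)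
          ((continuous_integrand hT μ y).intervalIntegrable _ _)]
        simp [integrand]
      map_smul' := fun c x => by
        simp only [RingHom.id_apply]
        rw [← intervalIntegral.integral_smul]
        refine intervalIntegral.integral_congr fun s _ => ?_
        simp [integrand, smul_smul, mul_comm] }
    (by
      obtain ⟨C, hC0, hC⟩ := hT.bound_Icc (min 0 t) (max 0 t)
      obtain ⟨D, hD⟩ := (isCompact_Icc (a := min 0 t) (b := max 0 t)).exists_bound_of_continuousOn
        (f := fun s : ℝ => Complex.exp (-(μ * s))) (by fun_prop)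
      refine ⟨|D| * C * |t|, fun x => ?_⟩
      have h1 : ∀ s ∈ uIoc (0:ℝ) t, ‖integrand T μ x s‖ ≤ |D| * C * ‖x‖ := by
        intro s hs
        have hs' : s ∈ Icc (min 0 t) (max 0 t) := ⟨hs.1.le, hs.2⟩
        unfold integrand
        rw [norm_smul]
        calc ‖Complex.exp (-(μ * s))‖ * ‖T s x‖ ≤ |D| * (C * ‖x‖) := by
              gcongr
              · exact (hD s hs').trans (le_abs_self D)
              · exact (T s).le_of_opNorm_le (hC s hs') x
          _ = _ := by ring
      have h2 := intervalIntegral.norm_integral_le_of_norm_le_const h1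
      simp only [LinearMap.coe_mk, AddHom.coe_mk]
      refine h2.trans (le_of_eq ?_)
      rw [sub_zero]; ring)

lemma lap_apply {T : ℝ → K →L[ℂ] K} (hT : IsC0Group T) (μ : ℂ) (t : ℝ) (x : K) :
    lap hT μ t x = ∫ s in (0:ℝ)..t, integrand T μ x s := rfl

section

variable {T : ℝ → K →L[ℂ] K} (hT : IsC0Group T)

include hT

/-- A bounded operator commuting with the group commutes with the generator. -/
lemma GenGraph.map_comm {B : K →L[ℂ] K} (hB : ∀ t, B * T t = T t * B) {x w : K}
    (h : GenGraph T x w) : GenGraph T (B x) (B w) := by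
  have := (B.continuous.tendsto w).comp h
  refine this.congr fun t => ?_
  have hc : B (T t x) = T t (B x) := by
    have := congrArg (fun F : K →L[ℂ] K => F x) (hB t)
    simpa using this
  simp [hc]

lemma lap_comm (μ : ℂ) (t s : ℝ) : lap hT μ t * T s = T s * lap hT μ t := by
  ext x
  simp only [mul_apply_eq_comp, lap_apply]
  have := (T s).intervalIntegral_comp_comm
    ((continuous_integrand hT μ x).intervalIntegrable 0 t (μ := volume))
  rw [← this]
  refine intervalIntegral.integral_congr fun r _ => ?_
  simp only [integrand, map_smul]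
  congr 1
  have := congrArg (fun F : K →L[ℂ] K => F x) (hT.comm r s)
  simpa using this

/-- `A ∫₀ᵗ e^{-μ s} T_s x ds = μ ∫₀ᵗ e^{-μ s} T_s x ds + e^{-μ t} T_t x - x`. -/
lemma genGraph_lap (μ : ℂ) (t : ℝ) (x : K) :
    GenGraph T (lap hT μ t x)
      (μ • lap hT μ t x + Complex.exp (-(μ * t)) • T t x - x) := by
  set G : ℝ → K := fun u => ∫ s in (0:ℝ)..u, integrand T μ x s with hG
  have hGd : ∀ u, HasDerivAt G (integrand T μ x u) u := fun u =>
    intervalIntegral.integral_hasDerivAt_right
      ((continuous_integrand hT μ x).intervalIntegrable _ _)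
      (continuous_integrand hT μ x).stronglyMeasurable.stronglyMeasurableAtFilter
      (continuous_integrand hT μ x).continuousAt
  have hF : ∀ h : ℝ, T h (lap hT μ t x) = Complex.exp (μ * h) • (G (t + h) - G h) := by
    intro h
    have h1 : G (t + h) - G h = ∫ s in h..(t + h), integrand T μ x s := by
      simp only [hG]
      rw [intervalIntegral.integral_interval_sub_left]
      · exact (continuous_integrand hT μ x).intervalIntegrable _ _
      · exact (continuous_integrand hT μ x).intervalIntegrable _ _
    have h2 : ∫ s in h..(t + h), integrand T μ x s = ∫ s in (0:ℝ)..t, integrand T μ x (s + h) := by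
      rw [intervalIntegral.integral_comp_add_right (fun s => integrand T μ x s) h, zero_add]
    rw [h1, h2, lap_apply]
    have := (T h).intervalIntegral_comp_comm
      ((continuous_integrand hT μ x).intervalIntegrable 0 t (μ := volume))
    rw [← this, ← intervalIntegral.integral_smul]
    refine intervalIntegral.integral_congr fun r _ => ?_
    simp only [integrand, map_smul, smul_smul]
    rw [← Complex.exp_add, ← hT.apply_add, add_comm h r]
    congr 2
    push_cast
    ring
  have hd : HasDerivAt (fun h : ℝ => T h (lap hT μ t x))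
      (μ • lap hT μ t x + Complex.exp (-(μ * t)) • T t x - x) 0 := by
    have e : (fun h : ℝ => T h (lap hT μ t x)) =
        fun h : ℝ => Complex.exp (μ * h) • (G (t + h) - G h) := funext hF
    rw [e]
    have d1 : HasDerivAt (fun h : ℝ => Complex.exp (μ * h)) μ 0 := by
      have : HasDerivAt (fun h : ℝ => (h : ℂ)) 1 0 := Complex.ofRealCLM.hasDerivAt
      have h3 := (this.const_mul μ).cexp
      simpa using h3
    have d2 : HasDerivAt (fun h : ℝ => G (t + h) - G h)
        (integrand T μ x t - integrand T μ x 0) 0 := by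
      have a1 : HasDerivAt (fun h : ℝ => G (t + h)) (integrand T μ x t) 0 := by
        have := hGd (t + 0)
        have := this.comp_const_add t 0
        simpa using this
      exact a1.sub (hGd 0)
    have d3 := d1.smul d2
    convert! d3 using 1
    have g0 : G 0 = 0 := by simp [hG]
    have gt : G t = lap hT μ t x := rfl
    simp only [add_zero, g0, gt, sub_zero, Complex.ofReal_zero, mul_zero, Complex.exp_zero,
      one_smul, integrand, neg_zero, hT.apply_zero]
    abel
  rw [hasDerivAt_iff_tendsto_slope] at hd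
  refine hd.congr' ?_
  filter_upwards [self_mem_nhdsWithin] with h hh
  rw [slope_def_module, sub_zero, hT.apply_zero]
  rw [← Complex.ofReal_inv, Complex.coe_smul]

lemma genGraph_lap' {μ : ℂ} {t : ℝ} {x w : K} (h : GenGraph T x w) :
    lap hT μ t (μ • x - w) = x - Complex.exp (-(μ * t)) • T t x := by
  have h1 := h.map_comm hT (B := lap hT μ t) (lap_comm hT μ t)
  have h2 := genGraph_lap hT μ t x
  have : lap hT μ t w = μ • lap hT μ t x + Complex.exp (-(μ * t)) • T t x - x :=
    tendsto_nhds_unique h1 h2
  rw [map_sub, map_smul, this]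
  abel

/-- The resolvent of the generator. -/
lemma exists_resolvent {z : ℂ} (hz : IsUnit (1 - Complex.exp (-z) • T 1)) :
    ∀ x y : K, (∃ w, GenGraph T x w ∧ z • x - w = y) ↔
      x = (lap hT z 1 * (Ring.inverse (1 - Complex.exp (-z) • T 1))) y := by
  set Q : K →L[ℂ] K := 1 - Complex.exp (-z) • T 1 with hQ
  have hQ1 : Q * Ring.inverse Q = 1 := Ring.mul_inverse_cancel _ hz
  have hQ2 : Ring.inverse Q * Q = 1 := Ring.inverse_mul_cancel _ hz
  have hcomm : lap hT z 1 * Q = Q * lap hT z 1 := by
    rw [hQ, mul_sub, sub_mul, mul_one, one_mul, mul_smul_comm, smul_mul_assoc, lap_comm]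
  have hcomm2 : lap hT z 1 * Ring.inverse Q = Ring.inverse Q * lap hT z 1 := by
    calc lap hT z 1 * Ring.inverse Q = Ring.inverse Q * Q * (lap hT z 1 * Ring.inverse Q) := by
          rw [hQ2, one_mul]
      _ = Ring.inverse Q * (lap hT z 1 * Q) * Ring.inverse Q := by
          rw [hcomm]; simp only [mul_assoc]
      _ = Ring.inverse Q * lap hT z 1 := by
          rw [mul_assoc, mul_assoc, hQ1, mul_one]
  have hQapp : ∀ u, Q u = u - Complex.exp (-(z * (1:ℝ))) • T 1 u := by
    intro u
    simp [hQ]
  intro x y
  constructor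
  · rintro ⟨w, hw, rfl⟩
    rw [hcomm2, mul_apply_eq_comp, genGraph_lap' hT hw, ← hQapp,
      ← mul_apply_eq_comp, hQ2]
    rfl
  · intro hx
    rw [mul_apply_eq_comp] at hx
    set u := Ring.inverse Q y with hu
    refine ⟨_, hx ▸ genGraph_lap hT z 1 u, ?_⟩
    have : Q u = y := by
      rw [hu, ← mul_apply_eq_comp, hQ1]; rfl
    rw [hx, ← this, hQapp]
    abel

lemma inResolventSet_of_isUnit {z : ℂ} (hz : IsUnit (1 - Complex.exp (-z) • T 1)) :
    InResolventSet T z := ⟨_, exists_resolvent hT hz⟩

end

end Pool.Agent.J6H47.PosGroup
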