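import Pool.Agent.J6H47.PosGroup.Gearhart

/-!
# Positive groups on ordered Hilbert spaces: spectral bound and growth bound coincide
-/

open MeasureTheory Filter Topology Set
open scoped ENNReal NNReal InnerProductSpace

set_option linter.unusedSectionVars false

namespace Pool.Agent.J6H47.PosGroup

variable {K : Type*} [NormedAddCommGroup K] [InnerProductSpace ℂ K] [CompleteSpace K]

section

variable [Nontrivial K] {T : ℝ → K →L[ℂ] K} (hT : IsC0Group T)

include hT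

lemma isUnit_T (t : ℝ) : IsUnit (T t) := by
  refine ⟨⟨T t, T (-t), ?_, ?_⟩, rfl⟩
  · rw [← hT.add, add_neg_cancel, hT.zero]
  · rw [← hT.add, neg_add_cancel, hT.zero]

lemma norm_T_pos (t : ℝ) : 0 < ‖T t‖ := by
  rw [norm_pos_iff]
  exact (isUnit_T hT t).ne_zero

/-- There is a spectral value of `T_1` of maximal modulus, and its modulus is positive. -/
lemma exists_max : ∃ z₀ ∈ spectrum ℂ (T 1), 0 < ‖z₀‖ ∧
    (∀ z ∈ spectrum ℂ (T 1), ‖z‖ ≤ ‖z₀‖) ∧ spectralRadius ℂ (T 1) = ‖z₀‖ₑ := by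
  obtain ⟨z₀, hz₀, h⟩ := spectrum.exists_nnnorm_eq_spectralRadius (T 1)
  refine ⟨z₀, hz₀, ?_, ?_, h.symm⟩
  · rw [norm_pos_iff]
    rintro rfl
    exact (spectrum.zero_mem_iff ℂ).1 hz₀ (isUnit_T hT 1)
  · intro z hz
    have h1 : (‖z‖₊ : ℝ≥0∞) ≤ spectralRadius ℂ (T 1) := by
      unfold spectralRadius
      exact le_iSup₂ (f := fun (k : ℂ) (_ : k ∈ spectrum ℂ (T 1)) => (‖k‖₊ : ℝ≥0∞)) z hz
    rw [← h] at h1
    exact_mod_cast h1

lemma tendsto_log_norm {z₀ : ℂ} (hz : 0 < ‖z₀‖) (h : spectralRadius ℂ (T 1) = ‖z₀‖ₑ) :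
    Tendsto (fun t : ℝ => Real.log ‖T t‖ / t) atTop (𝓝 (Real.log ‖z₀‖)) := by
  -- integer times
  have h1 : Tendsto (fun n : ℕ => Real.log ‖T (n : ℝ)‖ / n) atTop (𝓝 (Real.log ‖z₀‖)) := by
    have h2 := spectrum.pow_norm_pow_one_div_tendsto_nhds_spectralRadius (T 1)
    rw [h, ← ofReal_norm] at h2
    have h3 := (ENNReal.tendsto_toReal ENNReal.ofReal_ne_top).comp h2
    rw [ENNReal.toReal_ofReal hz.le] at h3
    have h4 := (Real.continuousAt_log hz.ne').tendsto.comp h3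
    refine h4.congr' ?_
    filter_upwards [eventually_gt_atTop 0] with n hn
    simp only [Function.comp]
    rw [hT.pow_one, ENNReal.toReal_ofReal (by positivity), Real.log_rpow (norm_T_pos hT _)]
    ring
  obtain ⟨C, hC0, hC⟩ := hT.bound_Icc (-1) 1
  -- comparison of real and integer times
  have hcmp : ∀ t : ℝ, 0 ≤ t →
      |Real.log ‖T t‖ - Real.log ‖T ((⌊t⌋₊ : ℕ) : ℝ)‖| ≤ |Real.log C| := by
    intro t ht
    set n : ℝ := ((⌊t⌋₊ : ℕ) : ℝ) with hn
    have hn1 : n ≤ t := Nat.floor_le ht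
    have hn2 : t < n + 1 := Nat.lt_floor_add_one t
    have b1 : ‖T t‖ ≤ C * ‖T n‖ := by
      have : T t = T (t - n) * T n := by rw [← hT.add]; ring_nf
      rw [this]
      exact (norm_mul_le _ _).trans (by
        gcongr
        exact hC _ ⟨by linarith, by linarith⟩)
    have b2 : ‖T n‖ ≤ C * ‖T t‖ := by
      have : T n = T (n - t) * T t := by rw [← hT.add]; ring_nf
      rw [this]
      exact (norm_mul_le _ _).trans (by
        gcongr
        exact hC _ ⟨by linarith, by linarith⟩)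
    have l1 := Real.log_le_log (norm_T_pos hT t) b1
    have l2 := Real.log_le_log (norm_T_pos hT n) b2
    rw [Real.log_mul hC0.ne' (norm_T_pos hT _).ne'] at l1 l2
    rw [abs_le]
    constructor <;> linarith [le_abs_self (Real.log C)]
  have h5 : Tendsto (fun t : ℝ => (Real.log ‖T ((⌊t⌋₊ : ℕ) : ℝ)‖ / (⌊t⌋₊ : ℕ)) * ((⌊t⌋₊ : ℕ) / t))
      atTop (𝓝 (Real.log ‖z₀‖ * 1)) :=
    (h1.comp tendsto_nat_floor_atTop).mul (tendsto_nat_floor_div_atTop (R := ℝ))
  have h6 : Tendsto (fun t : ℝ => (Real.log ‖T t‖ - Real.log ‖T ((⌊t⌋₊ : ℕ) : ℝ)‖) / t)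
      atTop (𝓝 0) := by
    have h7 : Tendsto (fun t : ℝ => |Real.log C| / t) atTop (𝓝 0) :=
      tendsto_const_nhds.div_atTop tendsto_id
    refine squeeze_zero_norm' ?_ h7
    filter_upwards [eventually_gt_atTop 0] with t ht
    rw [norm_div, Real.norm_eq_abs, Real.norm_of_nonneg ht.le]
    exact div_le_div_of_nonneg_right (hcmp t ht.le) ht.le
  have h8 := h5.add h6
  rw [mul_one, add_zero] at h8
  refine h8.congr' ?_
  filter_upwards [eventually_ge_atTop 1] with t ht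
  have hfl : ((⌊t⌋₊ : ℕ) : ℝ) ≠ 0 := by
    have : 0 < ⌊t⌋₊ := Nat.floor_pos.2 ht
    exact_mod_cast this.ne'
  have ht0 : t ≠ 0 := by linarith
  field_simp
  ring

end

/-- The spectral bound is at most the logarithm of the spectral radius. -/
lemma inResolventSet_of_lt {T : ℝ → K →L[ℂ] K} (hT : IsC0Group T) {z₀ : ℂ}
    (hmax : ∀ z ∈ spectrum ℂ (T 1), ‖z‖ ≤ ‖z₀‖) (hpos : 0 < ‖z₀‖) {z : ℂ}
    (hz : Real.log ‖z₀‖ < z.re) : InResolventSet T z := by
  apply inResolventSet_of_isUnit hT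
  have h1 : ‖z₀‖ < ‖Complex.exp z‖ := by
    rw [Complex.norm_exp]
    rwa [Real.log_lt_iff_lt_exp hpos] at hz
  have h2 : Complex.exp z ∉ spectrum ℂ (T 1) := fun hmem => absurd (hmax _ hmem) (not_le.2 h1)
  rw [spectrum.notMem_iff] at h2
  have h3 : (1 : K →L[ℂ] K) - Complex.exp (-z) • T 1
      = Complex.exp (-z) • (algebraMap ℂ (K →L[ℂ] K) (Complex.exp z) - T 1) := by
    rw [smul_sub, Algebra.algebraMap_eq_smul_one, smul_smul, ← Complex.exp_add, neg_add_cancel,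
      Complex.exp_zero, one_smul]
  rw [h3]
  have h4 := h2.smul (Units.mk0 (Complex.exp (-z)) (Complex.exp_ne_zero _))
  simpa using h4

/-- If the spectrum of the generator of a positive group lies in `Re z ≤ s` then the spectral
radius of `T_1` is at most `exp s`. -/
lemma log_le_of_res [Nontrivial K] {T : ℝ → K →L[ℂ] K} (hT : IsC0Group T) {P : Set K}
    (hP : ConeHyp P) (hTP : ∀ t, ∀ x ∈ P, T t x ∈ P) {s : ℝ}
    (hs : ∀ z : ℂ, s < z.re → InResolventSet T z) {z₀ : ℂ} (hz₀ : z₀ ∈ spectrum ℂ (T 1))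
    (hmax : ∀ z ∈ spectrum ℂ (T 1), ‖z‖ ≤ ‖z₀‖) (hpos : 0 < ‖z₀‖) : Real.log ‖z₀‖ ≤ s := by
  by_contra hlt
  rw [not_le] at hlt
  obtain ⟨l, hl1, hl2⟩ := exists_between hlt
  choose! R hR' using hs
  have hR : IsRes T s R := hR'
  obtain ⟨M, -, hM⟩ := hR.bounded hT hP hTP hl1
  -- a large `L`
  obtain ⟨L, hL1, hL2⟩ : ∃ L : ℝ, Real.exp (-L) * ‖T 1‖ ≤ 1 / 2 ∧ l ≤ L := by
    have h1 : Tendsto (fun L : ℝ => Real.exp (-L) * ‖T 1‖) atTop (𝓝 0) := by
      have := Real.tendsto_exp_neg_atTop_nhds_zero.mul_const ‖T 1‖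
      simpa using this
    obtain ⟨L, hL⟩ := ((h1.eventually_le_const (show (0:ℝ) < 1 / 2 by norm_num)).and
      (eventually_ge_atTop l)).exists
    exact ⟨L, hL.1, hL.2⟩
  obtain ⟨D, hD0, hD⟩ := hR.apriori hT hl1 hL2 hL1 hM
  -- the point `z = (1 + ε) z₀`
  obtain ⟨ε, hε0, hε1, hεD⟩ : ∃ ε : ℝ, 0 < ε ∧ ε ≤ 1 ∧ ε * D < 1 := by
    refine ⟨min 1 (1 / (2 * D)), by positivity, min_le_left _ _, ?_⟩
    have : min 1 (1 / (2 * D)) * D ≤ 1 / (2 * D) * D := by gcongr; exact min_le_right _ _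
    have h2 : 1 / (2 * D) * D = 1 / 2 := by field_simp
    linarith
  set z : ℂ := ((1 + ε : ℝ) : ℂ) * z₀ with hz
  have hznorm : ‖z‖ = (1 + ε) * ‖z₀‖ := by
    rw [hz, norm_mul, Complex.norm_real, Real.norm_of_nonneg (by linarith)]
  have hzgt : ‖z₀‖ < ‖z‖ := by rw [hznorm]; nlinarith
  have hz0 : z ≠ 0 := by
    rw [← norm_pos_iff]; linarith
  have hznot : z ∉ spectrum ℂ (T 1) := fun hmem => absurd (hmax _ hmem) (not_le.2 hzgt)
  rw [spectrum.notMem_iff] at hznot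
  obtain ⟨u, hu⟩ := hznot
  set μ := Complex.log z with hμ
  have hexpμ : Complex.exp (-μ) = z⁻¹ := by rw [Complex.exp_neg, hμ, Complex.exp_log hz0]
  have hμre : μ.re = Real.log ‖z‖ := Complex.log_re z
  have hμl : l ≤ μ.re := by
    rw [hμre]
    exact hl2.le.trans (Real.log_le_log hpos hzgt.le)
  have hμL : μ.re ≤ L := by
    rw [hμre, Real.log_le_iff_le_exp (by linarith), hznorm]
    have h1 : ‖z₀‖ ≤ ‖T 1‖ := spectrum.norm_le_norm_of_mem hz₀
    have h2 : ‖T 1‖ ≤ Real.exp L / 2 := by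
      rw [Real.exp_neg, inv_mul_le_iff₀ (Real.exp_pos _)] at hL1
      linarith
    have h3 : 0 < ‖z₀‖ := hpos
    nlinarith
  have hB : ‖(↑u⁻¹ : K →L[ℂ] K)‖ ≤ D / ‖z‖ := by
    refine ContinuousLinearMap.opNorm_le_bound _ (by positivity) fun y => ?_
    have h1 := hD μ hμl hμL ((↑u⁻¹ : K →L[ℂ] K) y)
    have h2 : (u : K →L[ℂ] K) ((↑u⁻¹ : K →L[ℂ] K) y) = y := by
      rw [← mul_apply_eq_comp, Units.mul_inv]
      rfl
    rw [hu, Algebra.algebraMap_eq_smul_one] at h2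
    simp only [sub_apply, smul_apply, one_apply_eq_self] at h2
    have h3 : Complex.exp (-μ) • T 1 ((↑u⁻¹ : K →L[ℂ] K) y) - (↑u⁻¹ : K →L[ℂ] K) y
        = - (z⁻¹ • y) := by
      rw [hexpμ]
      nth_rw 3 [← h2]
      rw [smul_sub, smul_smul, inv_mul_cancel₀ hz0, one_smul]
      abel
    rw [h3, norm_neg, norm_smul, norm_inv] at h1
    calc _ ≤ _ := h1
      _ = _ := by ring
  -- `z₀ - T_1` is invertible
  have hfac : algebraMap ℂ (K →L[ℂ] K) z₀ - T 1
      = (u : K →L[ℂ] K) * (1 - ((ε : ℂ) * z₀) • (↑u⁻¹ : K →L[ℂ] K)) := by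
    rw [mul_sub, mul_one, mul_smul_comm, Units.mul_inv, hu, Algebra.algebraMap_eq_smul_one,
      Algebra.algebraMap_eq_smul_one, hz]
    rw [sub_right_comm, ← sub_smul]
    congr 2
    push_cast
    ring
  have hsmall : ‖((ε : ℂ) * z₀) • (↑u⁻¹ : K →L[ℂ] K)‖ < 1 := by
    rw [norm_smul, norm_mul, Complex.norm_real, Real.norm_of_nonneg hε0.le]
    calc ε * ‖z₀‖ * ‖(↑u⁻¹ : K →L[ℂ] K)‖ ≤ ε * ‖z‖ * (D / ‖z‖) := by gcongr
      _ = ε * D := by
        have : ‖z‖ ≠ 0 := by linarith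
        field_simp
      _ < 1 := hεD
  apply hz₀
  rw [spectrum.mem_resolventSet_iff, hfac]
  exact u.isUnit.mul (isUnit_one_sub_of_norm_lt_one hsmall)

/-- **Main theorem**, real version. -/
theorem main_real [Nontrivial K] {T : ℝ → K →L[ℂ] K} (hT : IsC0Group T) {P : Set K}
    (hP : ConeHyp P) (hTP : ∀ t, ∀ x ∈ P, T t x ∈ P) :
    ∃ ω : ℝ, spectralBound T = (ω : EReal) ∧
      Tendsto (fun t : ℝ => Real.log ‖T t‖ / t) atTop (𝓝 ω) := by
  obtain ⟨z₀, hz₀, hpos, hmax, hrad⟩ := exists_max hT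
  refine ⟨Real.log ‖z₀‖, le_antisymm ?_ ?_, tendsto_log_norm hT hpos hrad⟩
  · refine sSup_le ?_
    rintro _ ⟨z, hz, rfl⟩
    simp only [EReal.coe_le_coe_iff]
    by_contra hlt
    rw [not_le] at hlt
    exact hz (inResolventSet_of_lt hT hmax hpos hlt)
  · by_contra hlt
    rw [not_le] at hlt
    obtain ⟨s, hs1, hs2⟩ := EReal.lt_iff_exists_real_btwn.1 hlt
    rw [EReal.coe_lt_coe_iff] at hs2
    refine absurd (log_le_of_res hT hP hTP (s := s) ?_ hz₀ hmax hpos) (not_le.2 hs2)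
    intro z hz
    by_contra hnot
    have h1 : ((z.re : ℝ) : EReal) ≤ spectralBound T :=
      le_sSup ⟨z, hnot, rfl⟩
    have h2 := h1.trans_lt hs1
    rw [EReal.coe_lt_coe_iff] at h2
    exact absurd hz (not_lt.2 h2.le)

/-- **Main theorem**: for a positive group, the growth bound is the spectral bound. -/
theorem main {T : ℝ → K →L[ℂ] K} (hT : IsC0Group T) {P : Set K}
    (hP : ConeHyp P) (hTP : ∀ t, ∀ x ∈ P, T t x ∈ P) :
    Tendsto (fun t : ℝ => ENNReal.log ‖T t‖ₑ / (t : EReal)) atTop (𝓝 (spectralBound T)) := by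
  rcases subsingleton_or_nontrivial K with hK | hK
  · have h1 : spectralBound T = ⊥ := by
      unfold spectralBound
      have : genSpectrum T = ∅ := by
        ext z
        simp only [genSpectrum, mem_ofPred_eq, mem_empty_iff_false, iff_false, not_not]
        refine ⟨0, fun x y => ⟨fun _ => Subsingleton.elim _ _, fun _ => ⟨0, ?_, Subsingleton.elim _ _⟩⟩⟩
        unfold GenGraph
        refine tendsto_const_nhds.congr fun t => Subsingleton.elim _ _
      rw [this, image_empty, sSup_empty]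
    rw [h1]
    refine tendsto_const_nhds.congr' ?_
    filter_upwards [eventually_gt_atTop 0] with t ht
    have h2 : T t = 0 := Subsingleton.elim _ _
    rw [h2]
    simp only [enorm_zero, ENNReal.log_zero]
    rw [EReal.bot_div_of_pos_ne_top (by exact_mod_cast ht) (EReal.coe_ne_top t)]
  · obtain ⟨ω, h1, h2⟩ := main_real hT hP hTP
    rw [h1]
    have h3 := (continuous_coe_real_ereal.tendsto ω).comp h2
    refine h3.congr fun t => ?_
    simp only [Function.comp]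
    rw [EReal.coe_div]
    congr 1
    rw [← ofReal_norm, ENNReal.log_ofReal_of_pos (norm_T_pos hT t)]

end Pool.Agent.J6H47.PosGroup
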